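import Mathlib

/-!
For every `r ≥ 3` and every `k ≥ 3` there is an `r`-coloured `k`-enabling colouring of a complete
graph with fewer than `2r(k-1)` vertices.  So the equality `n_r(k) = 2r(k-1)` fails for all
`k ≥ 3` as soon as `r ≥ 3`.

For odd `r` the vertices are the pairs `(i, a)` with `i` a colour in `ZMod r` and
`a ∈ ZMod (2k-3)`.  Two vertices `(i,a)`, `(j,a)` are joined in colour `(i+j)/2`, and for `a ≠ b`
the vertices `(i,a)`, `(j,b)` are joined in the colour `j` if `a → b` in the cyclic regular
tournament and in the colour `i` otherwise.  For even `r` one adds one more colour class with `2k`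
vertices.
-/

namespace Pool.Agent.Results.MP_7ae2b6_co.Disproof

/-- The set `S` of vertices is a monochromatic clique of colour `i`: every edge with both ends in
`S` has colour `i`. -/
def IsMonoClique {V C : Type} (c : V → V → C) (i : C) (S : Finset V) : Prop :=
  ∀ x ∈ S, ∀ y ∈ S, x ≠ y → c x y = i

/-- The colouring is `k`-enabling: for every vertex `v` and every colour `i` there is a
monochromatic clique of colour `i` of size exactly `k` that contains `v`. -/
def IsEnabling {V C : Type} (c : V → V → C) (k : ℕ) : Prop :=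
  ∀ (v : V) (i : C), ∃ S : Finset V, v ∈ S ∧ S.card = k ∧ IsMonoClique c i S

/-- There is an `r`-coloured `k`-enabling colouring of the complete graph on `n ≥ 1` vertices.
The colour of the edge joining distinct `u, v` is `c u v = c v u`; the values `c v v` play no
role. -/
def HasEnabling (r k n : ℕ) : Prop :=
  0 < n ∧ ∃ c : Fin n → Fin n → Fin r, (∀ u v, c u v = c v u) ∧ IsEnabling c k

theorem hasEnabling_of {V C : Type} [Fintype V] [Fintype C] [Nonempty V] {k : ℕ} (c : V → V → C)
    (hsymm : ∀ u v, u ≠ v → c u v = c v u) (h : IsEnabling c k) :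
    HasEnabling (Fintype.card C) k (Fintype.card V) := by
  classical
  refine ⟨Fintype.card_pos, ?_⟩
  let eV := (Fintype.equivFin V).symm
  let eC := Fintype.equivFin C
  refine ⟨fun u v => eC (c (eV u) (eV v)), ?_, ?_⟩
  · intro u v
    by_cases huv : u = v
    · rw [huv]
    · exact congrArg eC (hsymm _ _ (fun hh => huv (eV.injective hh)))
  · intro v i
    obtain ⟨S, hv, hS, hmono⟩ := h (eV v) (eC.symm i)
    refine ⟨S.map eV.symm.toEmbedding, ?_, ?_, ?_⟩
    · rw [Finset.mem_map]
      exact ⟨eV v, hv, by simp⟩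
    · rw [Finset.card_map, hS]
    · intro x hx y hy hxy
      rw [Finset.mem_map] at hx hy
      obtain ⟨x', hx', rfl⟩ := hx
      obtain ⟨y', hy', rfl⟩ := hy
      have hne : x' ≠ y' := fun hh => hxy (by rw [hh])
      simp [hmono x' hx' y' hy' hne]

/-- It is enough to find monochromatic cliques of size at least `k`. -/
theorem enabling_of_le {V C : Type} {k : ℕ} (c : V → V → C) (hk : 0 < k)
    (h : ∀ (v : V) (i : C), ∃ S : Finset V, v ∈ S ∧ k ≤ S.card ∧ IsMonoClique c i S) :
    IsEnabling c k := by
  classical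
  intro v i
  obtain ⟨S, hv, hS, hm⟩ := h v i
  obtain ⟨T, hvT, hTS, hT⟩ := Finset.exists_subsuperset_card_eq
    (s := {v}) (t := S) (n := k) (by simpa using hv) (by simp; omega) hS
  exact ⟨T, by simpa using hvT, hT, fun x hx y hy hxy => hm x (hTS hx) y (hTS hy) hxy⟩

/-! ### The cyclic tournament -/

/-- `a → b` in the cyclic tournament on `ZMod (2m+1)`. -/
def Arc (m : ℕ) (a b : ZMod (2 * m + 1)) : Prop := 1 ≤ (b - a).val ∧ (b - a).val ≤ m

instance (m : ℕ) (a b : ZMod (2 * m + 1)) : Decidable (Arc m a b) := by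
  unfold Arc; infer_instance

theorem arc_iff (m : ℕ) (a b : ZMod (2 * m + 1)) :
    Arc m a b ↔ 1 ≤ (b - a).val ∧ (b - a).val ≤ m := Iff.rfl

theorem arc_or (m : ℕ) (a b : ZMod (2 * m + 1)) (h : a ≠ b) : Arc m a b ↔ ¬ Arc m b a := by
  unfold Arc
  have hne : b - a ≠ 0 := sub_ne_zero.2 (Ne.symm h)
  have h1 : (a - b).val = (2 * m + 1) - (b - a).val := by
    rw [← neg_sub b a, ZMod.neg_val, if_neg hne]
  have h2 : (b - a).val < 2 * m + 1 := ZMod.val_lt _
  have h3 : (b - a).val ≠ 0 := fun h0 => hne ((ZMod.val_eq_zero _).1 h0)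
  omega

theorem card_arc (m : ℕ) (a : ZMod (2 * m + 1)) :
    (Finset.univ.filter (fun b => Arc m a b)).card = m := by
  have : (Finset.univ.filter (fun b => Arc m a b)) =
      (Finset.Icc 1 m).image (fun t : ℕ => a + (t : ZMod (2 * m + 1))) := by
    ext b
    simp only [Finset.mem_filter, Finset.mem_univ, true_and, Finset.mem_image, Finset.mem_Icc,
      arc_iff]
    constructor
    · intro h
      exact ⟨(b - a).val, h, by rw [ZMod.natCast_zmod_val]; ring⟩
    · rintro ⟨t, ht, rfl⟩
      have : (a + (t : ZMod (2 * m + 1)) - a).val = t := by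
        rw [add_sub_cancel_left]
        exact ZMod.val_natCast_of_lt (by omega)
      rw [this]
      exact ht
  rw [this, Finset.card_image_of_injOn]
  · simp
  · intro s hs t ht hst
    simp only [Finset.coe_Icc, Set.mem_Icc] at hs ht
    have h := congrArg ZMod.val (add_left_cancel hst)
    rwa [ZMod.val_natCast_of_lt (by omega), ZMod.val_natCast_of_lt (by omega)] at h

/-! ### The base colouring -/

/-- The colouring for an odd number `2h+1` of colours; here `M = 2m+1`. -/
def base (h m : ℕ) (u v : ZMod (2 * h + 1) × ZMod (2 * m + 1)) : ZMod (2 * h + 1) :=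
  if u.2 = v.2 then (u.1 + v.1) * ((h + 1 : ℕ) : ZMod (2 * h + 1))
  else if Arc m u.2 v.2 then v.1 else u.1

theorem base_symm (h m : ℕ) (u v : ZMod (2 * h + 1) × ZMod (2 * m + 1)) :
    base h m u v = base h m v u := by
  unfold base
  by_cases huv : u.2 = v.2
  · rw [if_pos huv, if_pos huv.symm, add_comm u.1 v.1]
  · rw [if_neg huv, if_neg (Ne.symm huv)]
    have := arc_or m _ _ huv
    by_cases h1 : Arc m u.2 v.2
    · rw [if_pos h1, if_neg (this.1 h1)]
    · have h2 : Arc m v.2 u.2 := by
        by_contra h3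
        exact h1 (this.2 h3)
      rw [if_neg h1, if_pos h2]

theorem two_half (h : ℕ) (x : ZMod (2 * h + 1)) :
    (x + x) * ((h + 1 : ℕ) : ZMod (2 * h + 1)) = x := by
  have h1 : ((2 * h + 1 : ℕ) : ZMod (2 * h + 1)) = 0 := ZMod.natCast_self _
  push_cast at h1 ⊢
  linear_combination x * h1

/-- The colour classes are monochromatic cliques. -/
theorem base_class (h m : ℕ) (i : ZMod (2 * h + 1)) (a b : ZMod (2 * m + 1)) :
    base h m (i, a) (i, b) = i := by
  unfold base
  by_cases hab : a = b
  · simp only [hab, if_true]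
    exact two_half h i
  · simp [hab]

theorem base_clique (h m : ℕ) (v : ZMod (2 * h + 1) × ZMod (2 * m + 1)) (l : ZMod (2 * h + 1))
    (hm : 1 ≤ m) :
    ∃ S : Finset (ZMod (2 * h + 1) × ZMod (2 * m + 1)), v ∈ S ∧ m + 2 ≤ S.card ∧
      IsMonoClique (base h m) l S := by
  classical
  obtain ⟨i, a⟩ := v
  by_cases hil : l = i
  · subst hil
    refine ⟨Finset.univ.image (fun b : ZMod (2 * m + 1) => (l, b)), ?_, ?_, ?_⟩
    · exact Finset.mem_image.2 ⟨a, Finset.mem_univ _, rfl⟩
    · rw [Finset.card_image_of_injective _ (fun x y hxy => (Prod.mk.inj hxy).2), Finset.card_univ,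
        ZMod.card]
      omega
    · intro x hx y hy _
      obtain ⟨x', _, rfl⟩ := Finset.mem_image.1 hx
      obtain ⟨y', _, rfl⟩ := Finset.mem_image.1 hy
      exact base_class h m l x' y'
  · -- the partner of `(i, a)` in colour `l`
    have hj : l + l - i ≠ i := by
      intro hh
      apply hil
      have h1 : l + l = i + i := by linear_combination hh
      have h2 := congrArg (fun t => t * ((h + 1 : ℕ) : ZMod (2 * h + 1))) h1
      simpa only [two_half] using h2
    have hjl : l + l - i ≠ l := by
      intro hh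
      apply hil
      linear_combination hh
    have hout : ∀ (j : ZMod (2 * h + 1)), ∀ b, Arc m a b → base h m (j, a) (l, b) = l := by
      intro j b hb
      have hab : a ≠ b := by
        rintro rfl
        simp [Arc] at hb
      simp [base, hab, hb]
    have hpart : base h m (i, a) (l + l - i, a) = l := by
      simp only [base, if_true]
      have := two_half h l
      rw [show i + (l + l - i) = l + l by ring]
      exact this
    refine ⟨{(i, a), (l + l - i, a)} ∪
      (Finset.univ.filter (fun b => Arc m a b)).image (fun b => (l, b)), by simp, ?_, ?_⟩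
    · rw [Finset.card_union_of_disjoint, Finset.card_pair,
        Finset.card_image_of_injective _ (fun x y hxy => (Prod.mk.inj hxy).2), card_arc]
      · omega
      · intro hh
        exact hj (Prod.mk.inj hh).1.symm
      · rw [Finset.disjoint_left]
        intro x hx hx'
        obtain ⟨b, hb, rfl⟩ := Finset.mem_image.1 hx'
        simp only [Finset.mem_insert, Finset.mem_singleton, Prod.mk.injEq] at hx
        rcases hx with hx | hx
        · exact hil hx.1
        · exact hjl hx.1.symm
    · intro x hx y hy hxy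
      simp only [Finset.mem_union, Finset.mem_insert, Finset.mem_singleton, Finset.mem_image,
        Finset.mem_filter, Finset.mem_univ, true_and] at hx hy
      rcases hx with (rfl | rfl) | ⟨b, hb, rfl⟩ <;> rcases hy with (rfl | rfl) | ⟨b', hb', rfl⟩
      · exact absurd rfl hxy
      · exact hpart
      · exact hout _ _ hb'
      · rw [base_symm]; exact hpart
      · exact absurd rfl hxy
      · exact hout _ _ hb'
      · rw [base_symm]; exact hout _ _ hb
      · rw [base_symm]; exact hout _ _ hb
      · exact base_class h m l b b'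

/-! ### Odd number of colours -/

theorem odd_case (h k : ℕ) (hk : 3 ≤ k) : HasEnabling (2 * h + 1) k ((2 * h + 1) * (2 * k - 3)) := by
  obtain ⟨m, rfl⟩ : ∃ m, k = m + 2 := ⟨k - 2, by omega⟩
  have h1 : IsEnabling (base h m) (m + 2) :=
    enabling_of_le _ (by omega) (fun v l => base_clique h m v l (by omega))
  have h2 := hasEnabling_of (base h m) (fun u v _ => base_symm h m u v) h1
  have e1 : Fintype.card (ZMod (2 * h + 1)) = 2 * h + 1 := ZMod.card _
  have e2 : Fintype.card (ZMod (2 * h + 1) × ZMod (2 * m + 1)) =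
      (2 * h + 1) * (2 * (m + 2) - 3) := by
    rw [Fintype.card_prod, ZMod.card, ZMod.card, show 2 * (m + 2) - 3 = 2 * m + 1 by omega]
  rw [e1, e2] at h2
  exact h2

/-! ### Even number of colours -/

/-- The pairs joined in the extra colour. -/
def Red (m : ℕ) (a : ZMod (2 * m + 1)) (x : Fin (2 * (m + 2))) : Prop :=
  ∃ t, t < m + 1 ∧ ((m + 1) * a.val + t) % (2 * (m + 2)) = x.val

open Classical in
theorem card_red_row (m : ℕ) (a : ZMod (2 * m + 1)) :
    m + 1 ≤ (Finset.univ.filter (fun x => Red m a x)).card := by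
  have hsub : (Finset.range (m + 1)).image
      (fun t => (⟨((m + 1) * a.val + t) % (2 * (m + 2)), Nat.mod_lt _ (by omega)⟩ :
        Fin (2 * (m + 2)))) ⊆ Finset.univ.filter (fun x => Red m a x) := by
    intro x hx
    obtain ⟨t, ht, rfl⟩ := Finset.mem_image.1 hx
    rw [Finset.mem_filter]
    exact ⟨Finset.mem_univ _, t, Finset.mem_range.1 ht, rfl⟩
  refine le_trans ?_ (Finset.card_le_card hsub)
  rw [Finset.card_image_of_injOn, Finset.card_range]
  intro s hs t ht hst
  simp only [Finset.coe_range, Set.mem_Iio] at hs ht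
  have h1 : ((m + 1) * a.val + s) % (2 * (m + 2)) = ((m + 1) * a.val + t) % (2 * (m + 2)) := by
    simpa using hst
  have h2 : s ≡ t [MOD 2 * (m + 2)] := Nat.ModEq.add_left_cancel' ((m + 1) * a.val) h1
  exact Nat.ModEq.eq_of_lt_of_lt h2 (by omega) (by omega)

open Classical in
theorem card_red_col (m : ℕ) (hm : 1 ≤ m) (x : Fin (2 * (m + 2))) :
    (Finset.univ.filter (fun a : ZMod (2 * m + 1) => Red m a x)).card ≤ m := by
  have hsub : Finset.univ.filter (fun a : ZMod (2 * m + 1) => Red m a x) ⊆
      (Finset.range m).image (fun q => (((2 * (m + 2)) * q + x.val) / (m + 1) : ℕ)) := by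
    intro a ha
    rw [Finset.mem_filter] at ha
    obtain ⟨_, t, ht, hx⟩ := ha
    rw [Finset.mem_image]
    have ha : a.val < 2 * m + 1 := ZMod.val_lt a
    refine ⟨((m + 1) * a.val + t) / (2 * (m + 2)), ?_, ?_⟩
    · rw [Finset.mem_range, Nat.div_lt_iff_lt_mul (by omega)]
      nlinarith
    · rw [← hx, Nat.div_add_mod, Nat.mul_add_div (by omega), Nat.div_eq_of_lt ht, add_zero,
        ZMod.natCast_zmod_val]
  calc _ ≤ _ := Finset.card_le_card hsub
    _ ≤ _ := Finset.card_image_le
    _ = m := Finset.card_range m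

open Classical in
theorem card_blue_col (m : ℕ) (hm : 1 ≤ m) (x : Fin (2 * (m + 2))) :
    m + 1 ≤ (Finset.univ.filter (fun a : ZMod (2 * m + 1) => ¬ Red m a x)).card := by
  have h1 := Finset.card_filter_add_card_filter_not (s := (Finset.univ : Finset (ZMod (2 * m + 1))))
    (fun a => Red m a x)
  rw [Finset.card_univ, ZMod.card] at h1
  have h2 := card_red_col m hm x
  omega

open Classical in
/-- The colouring for an even number `2h+2` of colours; `none` is the additional colour. -/
noncomputable def ext (h m : ℕ) :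
    (ZMod (2 * h + 1) × ZMod (2 * m + 1)) ⊕ Fin (2 * (m + 2)) →
    (ZMod (2 * h + 1) × ZMod (2 * m + 1)) ⊕ Fin (2 * (m + 2)) → Option (ZMod (2 * h + 1))
  | .inl u, .inl v => some (base h m u v)
  | .inl u, .inr x => if Red m u.2 x then none else some u.1
  | .inr x, .inl u => if Red m u.2 x then none else some u.1
  | .inr _, .inr _ => none

theorem ext_symm (h m : ℕ) (u v : (ZMod (2 * h + 1) × ZMod (2 * m + 1)) ⊕ Fin (2 * (m + 2))) :
    ext h m u v = ext h m v u := by
  rcases u with u | x <;> rcases v with v | y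
  · simp only [ext]; rw [base_symm]
  · rfl
  · rfl
  · rfl

theorem ext_clique (h m : ℕ) (hm : 1 ≤ m)
    (v : (ZMod (2 * h + 1) × ZMod (2 * m + 1)) ⊕ Fin (2 * (m + 2)))
    (l : Option (ZMod (2 * h + 1))) :
    ∃ S : Finset ((ZMod (2 * h + 1) × ZMod (2 * m + 1)) ⊕ Fin (2 * (m + 2))), v ∈ S ∧
      m + 2 ≤ S.card ∧ IsMonoClique (ext h m) l S := by
  classical
  rcases v with ⟨i, a⟩ | x <;> rcases l with _ | l
  · refine ⟨insert (Sum.inl (i, a)) ((Finset.univ.filter (fun x => Red m a x)).image Sum.inr),
      by simp, ?_, ?_⟩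
    · rw [Finset.card_insert_of_notMem (by simp), Finset.card_image_of_injective _ Sum.inr_injective]
      have := card_red_row m a
      omega
    · intro x hx y hy hxy
      simp only [Finset.mem_insert, Finset.mem_image, Finset.mem_filter, Finset.mem_univ,
        true_and] at hx hy
      rcases hx with rfl | ⟨x', hx', rfl⟩ <;> rcases hy with rfl | ⟨y', hy', rfl⟩
      · exact absurd rfl hxy
      · simp [ext, hy']
      · simp [ext, hx']
      · rfl
  · obtain ⟨S, hv, hS, hm'⟩ := base_clique h m (i, a) l hm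
    refine ⟨S.image Sum.inl, Finset.mem_image.2 ⟨_, hv, rfl⟩, ?_, ?_⟩
    · rwa [Finset.card_image_of_injective _ Sum.inl_injective]
    · intro x hx y hy hxy
      obtain ⟨x', hx', rfl⟩ := Finset.mem_image.1 hx
      obtain ⟨y', hy', rfl⟩ := Finset.mem_image.1 hy
      simp only [ext]
      rw [hm' x' hx' y' hy' (fun hh => hxy (by rw [hh]))]
  · refine ⟨Finset.univ.image Sum.inr, by simp, ?_, ?_⟩
    · rw [Finset.card_image_of_injective _ Sum.inr_injective, Finset.card_univ, Fintype.card_fin]
      omega
    · intro x hx y hy _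
      obtain ⟨x', _, rfl⟩ := Finset.mem_image.1 hx
      obtain ⟨y', _, rfl⟩ := Finset.mem_image.1 hy
      rfl
  · refine ⟨insert (Sum.inr x) ((Finset.univ.filter (fun a => ¬ Red m a x)).image
      (fun a => Sum.inl (l, a))), by simp, ?_, ?_⟩
    · rw [Finset.card_insert_of_notMem (by simp), Finset.card_image_of_injective _
        (fun a b hab => (Prod.mk.inj (Sum.inl_injective hab)).2)]
      have := card_blue_col m hm x
      omega
    · intro u hu v hv huv
      simp only [Finset.mem_insert, Finset.mem_image, Finset.mem_filter, Finset.mem_univ,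
        true_and] at hu hv
      rcases hu with rfl | ⟨a, ha, rfl⟩ <;> rcases hv with rfl | ⟨b, hb, rfl⟩
      · exact absurd rfl huv
      · simp [ext, hb]
      · simp [ext, ha]
      · simp only [ext]
        rw [base_class]

theorem even_case (h k : ℕ) (hk : 3 ≤ k) :
    HasEnabling (2 * h + 2) k ((2 * h + 1) * (2 * k - 3) + 2 * k) := by
  obtain ⟨m, rfl⟩ : ∃ m, k = m + 2 := ⟨k - 2, by omega⟩
  have h1 : IsEnabling (ext h m) (m + 2) :=
    enabling_of_le _ (by omega) (fun v l => ext_clique h m (by omega) v l)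
  have h2 := hasEnabling_of (ext h m) (fun u v _ => ext_symm h m u v) h1
  have e1 : Fintype.card (Option (ZMod (2 * h + 1))) = 2 * h + 2 := by
    rw [Fintype.card_option, ZMod.card]
  have e2 : Fintype.card ((ZMod (2 * h + 1) × ZMod (2 * m + 1)) ⊕ Fin (2 * (m + 2))) =
      (2 * h + 1) * (2 * (m + 2) - 3) + 2 * (m + 2) := by
    rw [Fintype.card_sum, Fintype.card_prod, ZMod.card, ZMod.card, Fintype.card_fin,
      show 2 * (m + 2) - 3 = 2 * m + 1 by omega]
  rw [e1, e2] at h2
  exact h2

/-- For all `r ≥ 3` and `k ≥ 3` the least order `n_r(k)` of a complete graph with an `r`-coloured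
`k`-enabling colouring exists and is smaller than `2r(k-1)`; more precisely it is at most
`r(2k-3)` for odd `r` and at most `(r-1)(2k-3)+2k` for even `r`. -/
theorem result (r k : ℕ) (hr : 3 ≤ r) (hk : 3 ≤ k) :
    ∃ n, IsLeast {n | HasEnabling r k n} n ∧ n < 2 * r * (k - 1) ∧
      (Odd r → n ≤ r * (2 * k - 3)) ∧ (Even r → n ≤ (r - 1) * (2 * k - 3) + 2 * k) := by
  classical
  obtain ⟨k', rfl⟩ : ∃ k', k = k' + 3 := ⟨k - 3, by omega⟩
  have e1 : 2 * (k' + 3) - 3 = 2 * k' + 3 := by omega
  have e2 : k' + 3 - 1 = k' + 2 := by omega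
  rcases Nat.even_or_odd r with hpar | hpar
  · obtain ⟨h, rfl⟩ : ∃ h, r = 2 * h + 2 := by
      obtain ⟨t, ht⟩ := hpar
      exact ⟨t - 1, by omega⟩
    have hex := even_case h (k' + 3) hk
    have hne : {n | HasEnabling (2 * h + 2) (k' + 3) n}.Nonempty := ⟨_, hex⟩
    have hle : sInf {n | HasEnabling (2 * h + 2) (k' + 3) n} ≤
        (2 * h + 1) * (2 * (k' + 3) - 3) + 2 * (k' + 3) := Nat.sInf_le hex
    refine ⟨sInf {n | HasEnabling (2 * h + 2) (k' + 3) n}, ⟨Nat.sInf_mem hne,
      fun n hn => Nat.sInf_le hn⟩, ?_, ?_, ?_⟩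
    · refine lt_of_le_of_lt hle ?_
      rw [e1, e2]
      have : 1 ≤ h := by omega
      nlinarith
    · intro ho
      exact absurd hpar (Nat.not_even_iff_odd.2 ho)
    · intro _
      simpa using hle
  · obtain ⟨h, rfl⟩ : ∃ h, r = 2 * h + 1 := hpar
    have hex := odd_case h (k' + 3) hk
    have hne : {n | HasEnabling (2 * h + 1) (k' + 3) n}.Nonempty := ⟨_, hex⟩
    have hle : sInf {n | HasEnabling (2 * h + 1) (k' + 3) n} ≤
        (2 * h + 1) * (2 * (k' + 3) - 3) := Nat.sInf_le hex
    refine ⟨sInf {n | HasEnabling (2 * h + 1) (k' + 3) n}, ⟨Nat.sInf_mem hne,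
      fun n hn => Nat.sInf_le hn⟩, ?_, ?_, ?_⟩
    · refine lt_of_le_of_lt hle ?_
      rw [e1, e2]
      nlinarith
    · intro _
      exact hle
    · intro he
      exact absurd he (Nat.not_even_iff_odd.2 ⟨h, rfl⟩)

end Pool.Agent.Results.MP_7ae2b6_co.Disproof
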